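import Mathlib

/-! Cube-like graphs: colourings, attained values, doubling, small examples. -/

set_option autoImplicit false

namespace Pool.Agent.MP_83e673_co.H84

open Finset

/-- The Cayley graph with connection set `S` has a proper colouring with `m` colours. -/
def Col {V : Type} [AddCommGroup V] (S : Set V) (m : ℕ) : Prop :=
  ∃ c : V → Fin m, ∀ x y, x ≠ y → x + y ∈ S → c x ≠ c y

/-- `m + 1` is the chromatic number of a Cayley graph of an elementary abelian `2`-group. -/
def Att1 (m : ℕ) : Prop :=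
  ∃ (V : Type) (_ : AddCommGroup V) (_ : Module (ZMod 2) V) (_ : Finite V) (S : Set V),
    Col S (m + 1) ∧ ¬ Col S m

/-- `m` is attained. -/
def Att (m : ℕ) : Prop :=
  ∃ d : ℕ, ∃ S : Set (Fin d → ZMod 2),
    (SimpleGraph.fromRel (fun x y : Fin d → ZMod 2 => x + y ∈ S)).chromaticNumber = (m : ℕ∞)

theorem col_of_card {V : Type} [AddCommGroup V] {S : Set V} {κ : Type} [Fintype κ] {m : ℕ}
    (h : Fintype.card κ ≤ m) (c : V → κ) (hc : ∀ x y, x ≠ y → x + y ∈ S → c x ≠ c y) :
    Col S m := by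
  obtain ⟨e⟩ : Nonempty (κ ↪ Fin m) :=
    Function.Embedding.nonempty_of_card_le (by simpa using h)
  exact ⟨fun x => e (c x), fun x y hxy hs h => hc x y hxy hs (e.injective h)⟩

theorem colorable_iff {V : Type} [AddCommGroup V] (S : Set V) (m : ℕ) :
    (SimpleGraph.fromRel (fun x y : V => x + y ∈ S)).Colorable m ↔ Col S m := by
  constructor
  · rintro ⟨c⟩
    exact ⟨c, fun x y hxy hs => c.valid ⟨hxy, Or.inl hs⟩⟩
  · rintro ⟨c, hc⟩
    refine ⟨SimpleGraph.Coloring.mk c ?_⟩
    rintro x y ⟨hxy, hs | hs⟩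
    · exact hc x y hxy hs
    · exact hc x y hxy (by rwa [add_comm])

theorem col_equiv {V W : Type} [AddCommGroup V] [AddCommGroup W] (e : V ≃+ W) (S : Set W)
    (m : ℕ) (h : Col S m) : Col (e ⁻¹' S) m := by
  obtain ⟨c, hc⟩ := h
  refine ⟨fun x => c (e x), fun x y hxy hs => hc _ _ (fun h => hxy (e.injective h)) ?_⟩
  rwa [← map_add]

theorem att_of_att1 {m : ℕ} (h : Att1 m) : Att (m + 1) := by
  obtain ⟨V, _, _, _, S, h1, h2⟩ := h
  have : Module.Finite (ZMod 2) V := Module.Finite.of_finite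
  let e : V ≃+ (Fin (Module.finrank (ZMod 2) V) → ZMod 2) :=
    (Module.finBasis (ZMod 2) V).equivFun.toAddEquiv
  refine ⟨_, e.symm ⁻¹' S, ?_⟩
  rw [Nat.cast_add_one, SimpleGraph.chromaticNumber_eq_iff_colorable_not_colorable,
    colorable_iff, colorable_iff]
  refine ⟨col_equiv e.symm S _ h1, fun h => h2 ?_⟩
  have h3 := col_equiv e _ _ h
  have h4 : e ⁻¹' (e.symm ⁻¹' S) = S := by
    ext x; simp
  rwa [h4] at h3

/-- Counting bound by the independence number. -/
theorem card_le_of_col {V : Type} [AddCommGroup V] [Fintype V] {S : Set V} {m a : ℕ}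
    (h : Col S m) (ha : ∀ I : Finset V, (∀ x ∈ I, ∀ y ∈ I, x ≠ y → x + y ∉ S) → I.card ≤ a) :
    Fintype.card V ≤ m * a := by
  classical
  obtain ⟨c, hc⟩ := h
  have h1 := Finset.card_eq_sum_card_fiberwise (s := (univ : Finset V)) (t := (univ : Finset (Fin m)))
    (f := c) (fun _ _ => mem_coe.mpr (mem_univ _))
  rw [← Finset.card_univ, h1]
  calc _ ≤ ∑ _i : Fin m, a := by
        refine Finset.sum_le_sum fun i _ => ha _ fun x hx y hy hxy hs => hc x y hxy hs ?_
        rw [(mem_filter.mp hx).2, (mem_filter.mp hy).2]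
    _ = m * a := by simp

theorem zmod2_cases (e : ZMod 2) : e = 0 ∨ e = 1 := by
  revert e; decide

/-- Complete graphs. -/
theorem att1_pow (n : ℕ) : Att1 (2 ^ n - 1) := by
  have hpos : 0 < 2 ^ n := by positivity
  refine ⟨Fin n → ZMod 2, inferInstance, inferInstance, inferInstance, Set.univ, ?_, fun h => ?_⟩
  · refine col_of_card (κ := Fin n → ZMod 2) ?_ id fun x y hxy _ => hxy
    simp only [Fintype.card_fun, ZMod.card, Fintype.card_fin]
    omega
  · have := card_le_of_col (a := 1) h fun I hI =>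
      Finset.card_le_one.mpr fun x hx y hy => by
        by_contra hxy
        exact hI x hx y hy hxy (Set.mem_univ _)
    simp only [Fintype.card_fun, ZMod.card, Fintype.card_fin] at this
    omega

/-- Doubling: the join of two copies. -/
theorem att1_double {m : ℕ} (h : Att1 m) : Att1 (2 * m + 1) := by
  classical
  obtain ⟨V, _, _, _, S, ⟨c, hc⟩, h2⟩ := h
  refine ⟨ZMod 2 × V, inferInstance, inferInstance, inferInstance,
    {v | v.1 = 1 ∨ v.2 ∈ S}, ?_, ?_⟩
  · refine col_of_card (κ := ZMod 2 × Fin (m + 1)) (by simp; omega) (fun v => (v.1, c v.2)) ?_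
    rintro ⟨e, x⟩ ⟨e', y⟩ hne hs heq
    obtain ⟨rfl, h3⟩ := Prod.mk.inj heq
    rcases hs with hs | hs
    · have : e + e = 1 := hs
      revert this; rcases zmod2_cases e with rfl | rfl <;> decide
    · exact hc x y (fun h => hne (by rw [h])) hs h3
  · rintro ⟨c', hc'⟩
    have := Fintype.ofFinite V
    let A : ZMod 2 → Finset (Fin (2 * m + 1)) := fun e => univ.image fun x : V => c' (e, x)
    have hA : ∀ e, m + 1 ≤ (A e).card := by
      intro e
      by_contra hlt
      refine h2 (col_of_card (κ := A e) (by simp; omega)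
        (fun x => ⟨c' (e, x), mem_image_of_mem _ (mem_univ _)⟩) ?_)
      intro x y hxy hs heq
      exact hc' (e, x) (e, y) (fun h => hxy (Prod.mk.inj h).2) (Or.inr hs)
        (congrArg Subtype.val heq)
    have hd : Disjoint (A 0) (A 1) := by
      rw [Finset.disjoint_left]
      intro i h0 h1
      obtain ⟨x, -, hx⟩ := mem_image.mp h0
      obtain ⟨y, -, hy⟩ := mem_image.mp h1
      exact hc' (0, x) (1, y) (fun h => absurd (Prod.mk.inj h).1 (by decide))
        (Or.inl (by simp)) (hx.trans hy.symm)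
    have h3 := Finset.card_le_univ (A 0 ∪ A 1)
    rw [card_union_of_disjoint hd, Fintype.card_fin] at h3
    have := hA 0
    have := hA 1
    omega

/-! ### Small examples by search -/

/-- Search for an independent set of size `k` in a union of cliques. -/
def srch (M : ℕ) : ℕ → List (List ℕ) → ℕ → Bool
  | _, _, 0 => true
  | 0, _, _ + 1 => true
  | _ + 1, [], _ + 1 => false
  | f + 1, C :: Cs, k + 1 => Nat.ble k Cs.length && (srch M f Cs (k + 1) || C.any fun v =>
      srch M f ((Cs.map fun D => D.filter fun u => !M.testBit (u ^^^ v)).filter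
        fun D => !D.isEmpty) k)

theorem card_le_length (M : ℕ) (Cs : List (List ℕ)) :
    ∀ I : Finset ℕ, (∀ C ∈ Cs, ∀ u ∈ C, ∀ v ∈ C, u ≠ v → M.testBit (u ^^^ v) = true) →
      (∀ u ∈ I, ∃ C ∈ Cs, u ∈ C) → (∀ u ∈ I, ∀ v ∈ I, u ≠ v → M.testBit (u ^^^ v) = false) →
      I.card ≤ Cs.length := by
  induction Cs with
  | nil =>
    intro I _ h _
    have : I = ∅ := Finset.eq_empty_of_forall_notMem fun u hu => by simpa using h u hu
    simp [this]
  | cons C Cs ih =>
    intro I h1 h2 h3
    have h4 := ih (I.filter fun u => u ∉ C) (fun D hD => h1 D (List.mem_cons_of_mem _ hD))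
      (fun u hu => by
        obtain ⟨D, hD, huD⟩ := h2 u (mem_filter.mp hu).1
        rcases List.mem_cons.mp hD with rfl | hD
        · exact absurd huD (mem_filter.mp hu).2
        · exact ⟨D, hD, huD⟩)
      (fun u hu v hv => h3 u (mem_filter.mp hu).1 v (mem_filter.mp hv).1)
    have h5 : (I.filter fun u => u ∈ C).card ≤ 1 := Finset.card_le_one.mpr fun u hu v hv => by
      by_contra huv
      have a1 := h1 C List.mem_cons_self u (mem_filter.mp hu).2 v (mem_filter.mp hv).2 huv
      rw [h3 u (mem_filter.mp hu).1 v (mem_filter.mp hv).1 huv] at a1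
      exact absurd a1 (by decide)
    have h6 := Finset.card_filter_add_card_filter_not (s := I) (fun u => u ∈ C)
    rw [List.length_cons]
    omega

theorem srch_sound (M : ℕ) (f : ℕ) : ∀ (Cs : List (List ℕ)) (k : ℕ) (I : Finset ℕ),
    (∀ C ∈ Cs, ∀ u ∈ C, ∀ v ∈ C, u ≠ v → M.testBit (u ^^^ v) = true) →
      (∀ u ∈ I, ∃ C ∈ Cs, u ∈ C) → (∀ u ∈ I, ∀ v ∈ I, u ≠ v → M.testBit (u ^^^ v) = false) →
      k ≤ I.card → srch M f Cs k = true := by
  induction f with
  | zero => intro Cs k I _ _ _ _; cases k <;> rfl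
  | succ f ih =>
    intro Cs k I h1 h2 h3 hk
    have hlen := card_le_length M Cs I h1 h2 h3
    match k, Cs with
    | 0, _ => rfl
    | k + 1, [] => simp only [List.length_nil] at hlen; omega
    | k + 1, C :: Cs =>
      rw [List.length_cons] at hlen
      rw [srch, Bool.and_eq_true, Bool.or_eq_true, Nat.ble_eq]
      refine ⟨by omega, ?_⟩
      by_cases hv : ∃ v ∈ I, v ∈ C
      · obtain ⟨v, hvI, hvC⟩ := hv
        refine Or.inr (List.any_eq_true.mpr ⟨v, hvC, ih _ k (I.erase v) ?_ ?_ ?_ ?_⟩)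
        · intro D hD u hu w hw huw
          obtain ⟨D', hD', rfl⟩ := List.mem_map.mp (List.mem_filter.mp hD).1
          exact h1 D' (List.mem_cons_of_mem _ hD') u (List.mem_filter.mp hu).1 w
            (List.mem_filter.mp hw).1 huw
        · intro u hu
          obtain ⟨huv, huI⟩ := mem_erase.mp hu
          have a2 := h3 u huI v hvI huv
          obtain ⟨D, hD, huD⟩ := h2 u huI
          rcases List.mem_cons.mp hD with rfl | hD
          · have a1 := h1 D List.mem_cons_self u huD v hvC huv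
            rw [a2] at a1
            exact absurd a1 (by decide)
          · have hu' : u ∈ D.filter fun u => !M.testBit (u ^^^ v) :=
              List.mem_filter.mpr ⟨huD, by simp [a2]⟩
            refine ⟨_, List.mem_filter.mpr ⟨List.mem_map.mpr ⟨D, hD, rfl⟩, ?_⟩, hu'⟩
            cases hE : (D.filter fun u => !M.testBit (u ^^^ v)) with
            | nil => rw [hE] at hu'; simp at hu'
            | cons _ _ => rfl
        · exact fun u hu w hw => h3 u (mem_of_mem_erase hu) w (mem_of_mem_erase hw)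
        · rw [card_erase_of_mem hvI]; omega
      · refine Or.inl (ih Cs (k + 1) I (fun D hD => h1 D (List.mem_cons_of_mem _ hD)) ?_ h3 hk)
        intro u hu
        obtain ⟨D, hD, huD⟩ := h2 u hu
        rcases List.mem_cons.mp hD with rfl | hD
        · exact absurd ⟨u, hu, huD⟩ hv
        · exact ⟨D, hD, huD⟩

/-- The vector of binary digits. -/
def dec (d n : ℕ) : Fin d → ZMod 2 := fun i => if n.testBit i then 1 else 0

theorem dec_xor (d a b : ℕ) : dec d (a ^^^ b) = dec d a + dec d b := by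
  funext i
  simp only [dec, Nat.testBit_xor, Pi.add_apply]
  cases a.testBit i <;> cases b.testBit i <;> decide

theorem dec_inj {d a b : ℕ} (ha : a < 2 ^ d) (hb : b < 2 ^ d) (h : dec d a = dec d b) : a = b := by
  apply Nat.eq_of_testBit_eq
  intro i
  by_cases hi : i < d
  · have := congrFun h ⟨i, hi⟩
    simp only [dec] at this
    revert this
    cases a.testBit i <;> cases b.testBit i <;> decide
  · have h2 : 2 ^ d ≤ 2 ^ i := Nat.pow_le_pow_right (by norm_num) (by omega)
    rw [Nat.testBit_lt_two_pow (ha.trans_le h2), Nat.testBit_lt_two_pow (hb.trans_le h2)]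

theorem dec_surj (d : ℕ) (x : Fin d → ZMod 2) : ∃ a < 2 ^ d, dec d a = x := by
  have h : Function.Bijective (fun a : Fin (2 ^ d) => dec d a) :=
    (Fintype.bijective_iff_injective_and_card _).mpr
      ⟨fun a b h => Fin.ext (dec_inj a.2 b.2 h), by simp⟩
  obtain ⟨a, ha⟩ := h.2 x
  exact ⟨a, a.2, ha⟩

theorem att1_of_cert (d M m a : ℕ) (c : List ℕ) (Cs : List (List ℕ))
    (h1 : ∀ u < 2 ^ d, c.getD u 0 ≤ m)
    (h2 : ∀ u < 2 ^ d, ∀ v < 2 ^ d, M.testBit (u ^^^ v) = true → c.getD u 0 ≠ c.getD v 0)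
    (h3 : ∀ C ∈ Cs, ∀ u ∈ C, ∀ v ∈ C, u ≠ v → M.testBit (u ^^^ v) = true)
    (h4 : ∀ u < 2 ^ d, ∃ C ∈ Cs, u ∈ C) (h5 : srch M Cs.length.succ Cs (a + 1) = false)
    (h6 : m * a < 2 ^ d) : Att1 m := by
  classical
  choose enc henc1 henc2 using dec_surj d
  have hx : ∀ x y, enc (x + y) = enc x ^^^ enc y := fun x y =>
    dec_inj (henc1 _) (Nat.xor_lt_two_pow (henc1 _) (henc1 _))
      (by rw [dec_xor, henc2, henc2, henc2])
  have hinj : Function.Injective enc := fun x y h => by rw [← henc2 x, ← henc2 y, h]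
  refine ⟨Fin d → ZMod 2, inferInstance, inferInstance, inferInstance,
    {v | M.testBit (enc v) = true}, ?_, fun h => ?_⟩
  · refine ⟨fun x => ⟨c.getD (enc x) 0, Nat.lt_succ_of_le (h1 _ (henc1 x))⟩, ?_⟩
    intro x y _ hs heq
    exact h2 _ (henc1 x) _ (henc1 y) (by rw [← hx]; exact hs) (congrArg Fin.val heq)
  · have := card_le_of_col (a := a) h fun I hI => by
      by_contra hlt
      have h7 := srch_sound M Cs.length.succ Cs (a + 1) (I.image enc) h3
        (fun u hu => by
          obtain ⟨x, -, rfl⟩ := mem_image.mp hu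
          exact h4 _ (henc1 x))
        (fun u hu v hv huv => by
          obtain ⟨x, hx', rfl⟩ := mem_image.mp hu
          obtain ⟨y, hy', rfl⟩ := mem_image.mp hv
          have := hI x hx' y hy' (fun h => huv (by rw [h]))
          rw [← hx]
          simpa using this)
        (by rw [card_image_of_injective _ hinj]; omega)
      rw [h5] at h7
      exact absurd h7 (by decide)
    simp only [Fintype.card_fun, ZMod.card, Fintype.card_fin] at this
    omega

theorem att1_five : Att1 5 :=
  att1_of_cert 6 5769468637927179536 5 12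
    [2, 3, 3, 4, 0, 4, 0, 2, 1, 0, 0, 5, 3, 5, 3, 1, 3, 4, 4, 1, 1, 5, 3, 5, 0, 5, 5, 2, 2, 4, 0, 4,
      5, 2, 5, 3, 4, 3, 2, 4, 4, 1, 4, 0, 5, 0, 1, 5, 4, 0, 1, 0, 3, 1, 4, 3, 5, 3, 2, 3, 0, 2, 5, 0]
    [[0, 22, 42, 60], [1, 23, 43, 61], [2, 20, 40, 62], [3, 21, 41, 63], [4, 18, 46, 56],
      [5, 19, 47, 57], [6, 16, 44, 58], [7, 17, 45, 59], [8, 30, 34, 52], [9, 31, 35, 53],
      [10, 28, 32, 54], [11, 29, 33, 55], [12, 26, 38, 48], [13, 27, 39, 49], [14, 24, 36, 50],
      [15, 25, 37, 51]]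
    (by decide +kernel) (by decide +kernel) (by decide +kernel) (by decide +kernel)
    (by decide +kernel) (by decide +kernel)

theorem att1_six : Att1 6 :=
  att1_of_cert 5 2165801238 6 5
    [4, 0, 0, 5, 3, 5, 5, 0, 5, 6, 1, 0, 0, 4, 6, 3, 1, 3, 6, 2, 2, 6, 4, 1, 2, 1, 3, 4, 1, 2, 2, 5]
    [[0, 1, 17, 16], [2, 3, 19, 18], [4, 5, 21, 20], [6, 7, 23, 22], [8, 9, 25, 24],
      [10, 11, 27, 26], [12, 13, 29, 28], [14, 15, 31, 30]]
    (by decide +kernel) (by decide +kernel) (by decide +kernel) (by decide +kernel)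
    (by decide +kernel) (by decide +kernel)

end Pool.Agent.MP_83e673_co.H84
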