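import Pool.Agent.MP_83e673_co.H84.Latin

/-! Two-sided Latin square graphs: the lower bound for the chromatic number. -/

set_option autoImplicit false

namespace Pool.Agent.MP_83e673_co.H84

open Finset

variable {F : Type} [AddCommGroup F] [Fintype F] [DecidableEq F]

omit [DecidableEq F] in
theorem host_card {X Z : Finset F} {H G : Finset (ZMod 2 × F × F)} {b : F}
    (h : Host X Z H G b) : H.card + X.card ≤ Fintype.card F ∧
      (G.card ≤ Z.card ∨ (G.card ≤ 4 ∧ H.card + 2 ≤ Fintype.card F)) := by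
  obtain ⟨-, h1, h2, h3 | h3⟩ := h
  · exact ⟨h2, Or.inl (guests_le G b Z h1 h3)⟩
  · exact ⟨h2, Or.inr ⟨h3.1, h3.2.1⟩⟩

theorem arith1 (q y P c n β o sB sO : ℕ) (hq : q = P + 3 + y)
    (hN : β + o = q + y) (T1 : sB + sO = 2 * q * q)
    (TO : sO ≤ o * (q + c)) (TA : sB ≤ q * β + (P + 2) * n) :
    q * (P + 3) ≤ c * o + (P + 2) * n := by
  have h1 : q * β + q * o = q * (q + y) := by rw [← hN]; ring
  have h3 : q * (q + y) + q * (P + 3) = 2 * q * q := by rw [hq]; ring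
  have h4 : o * (q + c) = q * o + c * o := by ring
  omega

theorem arith2 (q y P c n w β o sB sO outB oR : ℕ) (hq : q = P + 3 + y) (hw : n + w = 2 * q)
    (hN : β + o = q + y) (T1 : sB + sO = 2 * q * q) (T2 : w * q ≤ sO + outB)
    (T3 : oR ≤ (P + 3) * w) (TO : sO ≤ o * (q + c))
    (TB : 2 * sB + P * outB + P * q * n ≤ 2 * q * β + 2 * (P + 2) * n + P * oR + P * q * β) :
    (P + 2) * q * (P + 3) ≤ (P + 2) * c * o + 2 * (P + 2) * n + P * (P + 3) * w := by
  have a1 : P * (w * q) ≤ P * (sO + outB) := Nat.mul_le_mul_left _ T2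
  have a2 : P * oR ≤ P * ((P + 3) * w) := Nat.mul_le_mul_left _ T3
  have a3 : (P + 2) * sO ≤ (P + 2) * (o * (q + c)) := Nat.mul_le_mul_left _ TO
  have a4 : (P + 2) * (q * β + q * o) + (P + 2) * q * (P + 3) = (P + 2) * (2 * q * q) := by
    rw [← mul_add q, hN, hq]; ring
  have a5 : P * q * n + P * (w * q) = P * (2 * q * q) := by
    rw [mul_assoc 2 q q, show P * (2 * (q * q)) = P * q * (2 * q) by ring, ← hw]; ring
  linarith

theorem arith3 (q y P c n β o : ℕ) (hq : q = P + 3 + y) (hq8 : 8 ≤ q)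
    (hc : (c = 0 ∧ 4 ≤ y) ∨ (c = 2 ∧ y ≤ 3))
    (hN : β + o = q + y) (hn : n ≤ β) (e1 : q * (P + 3) ≤ c * o + (P + 2) * n) : q < n := by
  by_contra hle
  obtain ⟨f, hf⟩ := Nat.exists_eq_add_of_le (not_lt.mp hle)
  have ho : o ≤ y + f := by omega
  have a1 : q * (P + 3) = (P + 2) * n + (P * f + 2 * f) + q := by rw [hf]; ring
  rcases hc with ⟨rfl, -⟩ | ⟨rfl, hy3⟩ <;> omega

theorem arith4 (q y P c e o : ℕ) (hq : q = P + 3 + y) (hq8 : 8 ≤ q)
    (hP : 1 ≤ P) (hy : 2 ≤ y) (hc : (c = 0 ∧ 4 ≤ y) ∨ (c = 2 ∧ y ≤ 3)) (ho : o + e + 1 ≤ y)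
    (e3 : 2 * q + P * (P + 3) * (e + 1) ≤ (P + 2) * c * o + 2 * (P + 2) * (e + 1)) : False := by
  rcases hc with ⟨rfl, -⟩ | ⟨rfl, hy3⟩
  · rcases Nat.eq_or_lt_of_le hP with rfl | hP2
    · omega
    · have a1 : 2 * (P + 2) ≤ P * (P + 3) := by nlinarith
      have a2 := Nat.mul_le_mul_right (e + 1) a1
      omega
  · have a0 := Nat.mul_le_mul_left (2 * (P + 2)) ho
    have a1 : (P + 2) * 2 * o + 2 * (P + 2) * (e + 1) ≤ 2 * (P + 2) * y := by linarith
    have a2 : P * (P + 3) ≤ P * (P + 3) * (e + 1) := Nat.le_mul_of_pos_right _ (by omega)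
    have a3 : 2 * q + P * (P + 3) ≤ 2 * (P + 2) * y := by omega
    have hP2 : 2 ≤ P := by omega
    have a4 : P * 5 ≤ P * (P + 3) := Nat.mul_le_mul_left _ (by omega)
    have a5 : y = 2 ∨ y = 3 := by omega
    rcases a5 with rfl | rfl <;> omega

theorem final_arith (q y P c n w β o sB sO outB oR : ℕ) (hq : q = P + 3 + y) (hq8 : 8 ≤ q)
    (hP : 1 ≤ P) (hy : 2 ≤ y) (hc : (c = 0 ∧ 4 ≤ y) ∨ (c = 2 ∧ y ≤ 3)) (hw : n + w = 2 * q)
    (hN : β + o = q + y) (hn : n ≤ β) (T1 : sB + sO = 2 * q * q) (T2 : w * q ≤ sO + outB)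
    (T3 : oR ≤ (P + 3) * w) (TO : sO ≤ o * (q + c)) (TA : sB ≤ q * β + (P + 2) * n)
    (TB : 2 * sB + P * outB + P * q * n ≤ 2 * q * β + 2 * (P + 2) * n + P * oR + P * q * β) :
    False := by
  have e1 := arith1 q y P c n β o sB sO hq hN T1 TO TA
  have e2 := arith2 q y P c n w β o sB sO outB oR hq hw hN T1 T2 T3 TO TB
  obtain ⟨e, he⟩ := Nat.exists_eq_add_of_lt (arith3 q y P c n β o hq hq8 hc hN hn e1)
  have hw' : q = w + e + 1 := by omega
  refine arith4 q y P c e o hq hq8 hP hy hc (by omega) ?_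
  have a1 : P * (P + 3) * q = P * (P + 3) * w + P * (P + 3) * (e + 1) := by rw [hw']; ring
  have a2 : 2 * (P + 2) * n = 2 * (P + 2) * q + 2 * (P + 2) * (e + 1) := by rw [he]; ring
  linarith

theorem row_bound {κ : Type} [DecidableEq κ] (Φ : Finset κ) (hΦ : Φ.Nonempty)
    (hh g out : κ → ℕ) (q y P o : ℕ) (hq : q = P + 3 + y) (hP : 1 ≤ P) (hy : 2 ≤ y)
    (h1 : ∑ i ∈ Φ, hh i ≤ q) (h2 : ∀ i ∈ Φ, out i ≤ g i)
    (h3 : ∀ i ∈ Φ, (hh i + 1 ≤ q ∧ g i ≤ P + 3 ∧ out i ≤ o) ∨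
      (hh i + 2 ≤ q ∧ g i ≤ 4 ∧ out i ≤ o + 2)) :
    ∑ i ∈ Φ, (hh i + g i) ≤ q * Φ.card + (P + 2) ∧
    2 * ∑ i ∈ Φ, (hh i + g i) + P * ∑ i ∈ Φ, out i + P * q ≤
      2 * q * Φ.card + 2 * (P + 2) + P * o + P * q * Φ.card := by
  obtain ⟨i, hi⟩ := hΦ
  rcases (Φ.erase i).eq_empty_or_nonempty with he | he
  · have : Φ = {i} := by rw [← insert_erase hi, he]; rfl
    subst this
    simp only [sum_singleton, card_singleton, mul_one]
    rcases h3 i hi with ⟨a1, a2, a3⟩ | ⟨a1, a2, a3⟩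
    · have := Nat.mul_le_mul_left P a3
      constructor <;> nlinarith
    · have := Nat.mul_le_mul_left P a3
      constructor <;> nlinarith
  · have hg : ∀ j ∈ Φ, g j ≤ P + 3 := fun j hj => by rcases h3 j hj with h | h <;> omega
    obtain ⟨m, hm⟩ : ∃ m, (Φ.erase i).card = m + 1 :=
      ⟨_, (Nat.succ_pred_eq_of_pos (card_pos.mpr he)).symm⟩
    have hc : Φ.card = m + 2 := by rw [← card_erase_add_one hi, hm]
    have b1 : ∑ j ∈ Φ, g j ≤ (m + 2) * (P + 3) := by
      simpa [hc] using Finset.sum_le_card_nsmul Φ g (P + 3) hg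
    have b2 : ∑ j ∈ Φ.erase i, out j ≤ (m + 1) * (P + 3) := by
      simpa [hm] using Finset.sum_le_card_nsmul (Φ.erase i) out (P + 3)
        fun j hj => (h2 j (mem_of_mem_erase hj)).trans (hg j (mem_of_mem_erase hj))
    have b3 : out i ≤ o + 2 := by rcases h3 i hi with h | h <;> omega
    have b4 : ∑ j ∈ Φ, out j ≤ o + (m + 1) * q := by
      rw [← Finset.add_sum_erase Φ out hi, hq]
      nlinarith
    have b5 : ∑ j ∈ Φ, (hh j + g j) ≤ q * (m + 2) + (P + 2) := by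
      rw [sum_add_distrib]
      have : q + (m + 2) * (P + 3) ≤ q * (m + 2) + (P + 2) := by rw [hq]; nlinarith
      omega
    have b6 := Nat.mul_le_mul_left P b4
    rw [hc]
    exact ⟨b5, by nlinarith⟩

theorem not_col (h2 : ∀ x : F, x + x = 0) (X Z : Finset F) (hX : X.Nonempty)
    (hq8 : 8 ≤ Fintype.card F) (hy : 2 ≤ Zᶜ.card) (hz : 4 ≤ Z.card) :
    ¬ Col (LS X Z) (Fintype.card F + Zᶜ.card) := by
  classical
  intro hcol0
  set q := Fintype.card F with hqdef
  set y := Zᶜ.card with hydef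
  obtain ⟨col, hcol⟩ := hcol0
  obtain ⟨P, hP⟩ : ∃ P, Z.card = P + 3 := ⟨Z.card - 3, by omega⟩
  have hq : q = P + 3 + y := by rw [← hP, hydef, card_add_card_compl]
  obtain ⟨c, hc⟩ : ∃ c, (c = 0 ∧ 4 ≤ y) ∨ (c = 2 ∧ y ≤ 3) := by
    by_cases h : 4 ≤ y
    · exact ⟨0, Or.inl ⟨rfl, h⟩⟩
    · exact ⟨2, Or.inr ⟨rfl, by omega⟩⟩
  have hX1 : 0 < X.card := card_pos.mpr hX
  let I : Fin (q + y) → Finset (ZMod 2 × F × F) := fun i => univ.filter fun v => col v = i
  have htype : ∀ i, ∃ ρ : ZMod 2 × F, (I i).card ≤ q + c ∨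
      Host X Z (side (I i) ρ.1) (side (I i) (ρ.1 + 1)) ρ.2 := by
    intro i
    rcases indep_types (c := c) (I := I i) h2 hX (card_pos.mp (by omega)) hq8 (by omega)
      (fun u hu v hv huv hs => hcol u v huv hs
        ((mem_filter.mp hu).2.trans (mem_filter.mp hv).2.symm)) with h | ⟨ρ, h⟩
    · exact ⟨(0, 0), Or.inl h⟩
    · exact ⟨ρ, Or.inr h⟩
  choose h hh using htype
  let B : Finset (Fin (q + y)) := univ.filter fun i => ¬ (I i).card ≤ q + c
  have hB : ∀ i ∈ B, Host X Z (side (I i) (h i).1) (side (I i) ((h i).1 + 1)) (h i).2 :=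
    fun i hi => (hh i).resolve_left (mem_filter.mp hi).2
  let R : Finset (ZMod 2 × F) := B.image h
  let out : Fin (q + y) → ℕ := fun i => ((I i).filter fun v => (v.1, v.2.2) ∉ R).card
  let O : ZMod 2 × F → Finset F := fun ρ => Z.filter fun t => (ρ.1 + 1, ρ.2 + t) ∉ R
  have key : ∀ a b : F, a + (a + b) = b := fun a b => by rw [← add_assoc, h2, zero_add]
  have hsub : ∀ i ∈ B, ((I i).filter fun v => (v.1, v.2.2) ∉ R) ⊆ side (I i) ((h i).1 + 1) := by
    intro i hi v hv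
    obtain ⟨hv1, hv2⟩ := mem_filter.mp hv
    refine mem_filter.mpr ⟨hv1, ?_⟩
    have hne : v.1 ≠ (h i).1 := fun e => hv2 (by
      rw [e, (hB i hi).1 v (mem_filter.mpr ⟨hv1, e⟩)]
      exact mem_image_of_mem _ hi)
    revert hne
    generalize v.1 = a
    generalize (h i).1 = b
    revert a b
    decide
  have hO : ∀ i ∈ B, ∀ v ∈ (I i).filter fun v => (v.1, v.2.2) ∉ R, (h i).2 + v.2.2 ∈ O (h i) := by
    intro i hi v hv
    have h1 := hsub i hi hv
    refine mem_filter.mpr ⟨(hB i hi).2.1 v h1, ?_⟩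
    rw [key, ← (mem_filter.mp h1).2]
    exact (mem_filter.mp hv).2
  have hrow : ∀ ρ ∈ R,
      ∑ i ∈ B.filter (fun i => h i = ρ), (I i).card ≤ q * (B.filter fun i => h i = ρ).card + (P + 2) ∧
      2 * ∑ i ∈ B.filter (fun i => h i = ρ), (I i).card +
          P * ∑ i ∈ B.filter (fun i => h i = ρ), out i + P * q ≤
        2 * q * (B.filter fun i => h i = ρ).card + 2 * (P + 2) + P * (O ρ).card +
          P * q * (B.filter fun i => h i = ρ).card := by
    intro ρ hρ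
    obtain ⟨i0, hi0, e0⟩ := mem_image.mp hρ
    have := row_bound (B.filter fun i => h i = ρ) ⟨i0, mem_filter.mpr ⟨hi0, e0⟩⟩
      (fun i => (side (I i) (h i).1).card) (fun i => (side (I i) ((h i).1 + 1)).card) out
      q y P (O ρ).card hq (by omega) hy ?_
      (fun i hi => card_le_card (hsub i (mem_filter.mp hi).1)) ?_
    · simpa only [side_card] using this
    · rw [← card_biUnion]
      · refine (card_le_card_of_injOn (t := (univ : Finset F)) (fun v => v.2.1)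
          (fun _ _ => mem_coe.mpr (mem_univ _)) ?_).trans (by simp [hqdef])
        have a1 : ∀ v ∈ (B.filter fun i => h i = ρ).biUnion fun i => side (I i) (h i).1,
            v.1 = ρ.1 ∧ v.2.2 = ρ.2 := by
          intro v hv
          obtain ⟨i, hi, hv'⟩ := mem_biUnion.mp hv
          obtain ⟨hiB, e⟩ := mem_filter.mp hi
          rw [← e]
          exact ⟨(mem_filter.mp hv').2, (hB i hiB).1 v hv'⟩
        intro u hu v hv e
        exact ext_ab ((a1 u hu).1.trans (a1 v hv).1.symm) e ((a1 u hu).2.trans (a1 v hv).2.symm)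
      · intro i _ j _ hij
        rw [Function.onFun, Finset.disjoint_left]
        intro v hv hv'
        exact hij ((mem_filter.mp (mem_filter.mp hv).1).2.symm.trans
          (mem_filter.mp (mem_filter.mp hv').1).2)
    · intro i hi
      obtain ⟨hiB, rfl⟩ := mem_filter.mp hi
      obtain ⟨-, a1, a2, a3 | a3⟩ := hB i hiB
      · refine Or.inl ⟨by omega, hP ▸ guests_le _ _ Z a1 a3, ?_⟩
        exact guests_le _ _ _ (hO i hiB) (a3.mono (coe_subset.mpr (hsub i hiB)))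
      · exact Or.inr ⟨a3.2.1, a3.1, guests_le_small (hsub i hiB) _ _ (hO i hiB) a3.1 a3.2.2⟩
  have hmap : ∀ i ∈ B, h i ∈ R := fun i hi => mem_image_of_mem _ hi
  have s1 := Finset.sum_fiberwise_of_maps_to hmap fun i => (I i).card
  have s2 := Finset.sum_fiberwise_of_maps_to hmap out
  have s3 := Finset.card_eq_sum_card_fiberwise (f := h) (s := B) (t := R) fun i hi => hmap i hi
  have TA := Finset.sum_le_sum fun ρ hρ => (hrow ρ hρ).1
  have TB := Finset.sum_le_sum fun ρ hρ => (hrow ρ hρ).2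
  simp only [sum_add_distrib, ← Finset.mul_sum, s1, s2, ← s3, sum_const, smul_eq_mul] at TA TB
  refine final_arith q y P c R.card Rᶜ.card B.card Bᶜ.card (∑ i ∈ B, (I i).card)
    (∑ i ∈ Bᶜ, (I i).card) (∑ i ∈ B, out i) (∑ ρ ∈ R, (O ρ).card) hq hq8 (by omega) hy hc
    ?_ ?_ card_image_le ?_ ?_ ?_ ?_ (by linarith) (by linarith)
  · rw [card_add_card_compl, Fintype.card_prod, ZMod.card]
  · rw [card_add_card_compl, Fintype.card_fin]
  · rw [sum_add_sum_compl, ← Finset.card_eq_sum_card_fiberwise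
      (fun _ _ => mem_coe.mpr (mem_univ _)), card_univ, Fintype.card_prod, Fintype.card_prod,
      ZMod.card, mul_assoc]
  · have a1 : Rᶜ.card * q ≤ (univ.filter fun v : ZMod 2 × F × F => (v.1, v.2.2) ∉ R).card := by
      rw [hqdef, ← card_univ, ← card_product]
      refine card_le_card_of_injOn (fun x => (x.1.1, x.2, x.1.2)) ?_ ?_
      · intro x hx
        simpa using hx
      · rintro ⟨⟨a, b⟩, d⟩ - ⟨⟨a', b'⟩, d'⟩ - e
        simp only [Prod.mk.injEq] at e ⊢
        tauto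
    have a2 : (univ.filter fun v : ZMod 2 × F × F => (v.1, v.2.2) ∉ R).card = ∑ i, out i := by
      rw [Finset.card_eq_sum_card_fiberwise (f := col) (t := univ)
        (fun _ _ => mem_coe.mpr (mem_univ _))]
      refine sum_congr rfl fun i _ => ?_
      rw [filter_comm]
    have a3 : ∑ i ∈ Bᶜ, out i ≤ ∑ i ∈ Bᶜ, (I i).card :=
      sum_le_sum fun i _ => card_filter_le _ _
    rw [a2, ← sum_add_sum_compl B] at a1
    omega
  · simp only [O, card_filter]
    rw [sum_comm, ← hP, ← smul_eq_mul]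
    refine sum_le_card_nsmul _ _ _ fun t _ => ?_
    rw [← card_filter]
    refine card_le_card_of_injOn (fun ρ => (ρ.1 + 1, ρ.2 + t)) ?_ ?_
    · intro ρ hρ
      exact mem_coe.mpr (mem_compl.mpr (mem_filter.mp hρ).2)
    · intro ρ _ ρ' _ e
      obtain ⟨e1, e2⟩ := Prod.mk.inj e
      exact Prod.ext (add_right_cancel e1) (add_right_cancel e2)
  · rw [← smul_eq_mul]
    refine sum_le_card_nsmul _ _ _ fun i hi => ?_
    simpa [B] using hi

end Pool.Agent.MP_83e673_co.H84
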