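import Pool.Agent.MP_83e673_co.H84.Basic

/-! Two-sided Latin square graphs: structure of independent sets. -/

set_option autoImplicit false

namespace Pool.Agent.MP_83e673_co.H84

open Finset

variable {F : Type} [AddCommGroup F] [Fintype F] [DecidableEq F]

/-- The connection set. -/
def LS (X Z : Finset F) : Set (ZMod 2 × F × F) :=
  {v | (v.1 = 0 ∧ v.2.1 ≠ 0 ∧ v.2.2 ≠ 0 ∧ v.2.1 ≠ v.2.2) ∨ (v.1 = 1 ∧ (v.2.1 ∈ X ∨ v.2.2 ∉ Z))}

/-- An independent set inside one side. -/
def Clq (K : Finset (ZMod 2 × F × F)) : Prop :=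
  ∀ u ∈ K, ∀ v ∈ K, u.1 = v.1 ∧
    (u.2.1 = v.2.1 ∨ u.2.2 = v.2.2 ∨ u.2.1 + u.2.2 = v.2.1 + v.2.2)

/-- No edges between the two sides. -/
def Crs (X Z : Finset F) (K K' : Finset (ZMod 2 × F × F)) : Prop :=
  ∀ u ∈ K, ∀ v ∈ K', u.2.1 + v.2.1 ∉ X ∧ u.2.2 + v.2.2 ∈ Z

omit [Fintype F] [DecidableEq F] in
theorem Crs.symm {X Z : Finset F} {K K' : Finset (ZMod 2 × F × F)} (h : Crs X Z K K') :
    Crs X Z K' K := fun u hu v hv => by
  rw [add_comm u.2.1, add_comm u.2.2]
  exact h v hv u hu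

/-- The function `f` is constant on `K`. -/
def Cst (f : ZMod 2 × F × F → F) (K : Finset (ZMod 2 × F × F)) : Prop :=
  ∀ u ∈ K, ∀ v ∈ K, f u = f v

/-- column coordinate -/
def fa (v : ZMod 2 × F × F) : F := v.2.1
/-- row coordinate -/
def fb (v : ZMod 2 × F × F) : F := v.2.2
/-- diagonal coordinate -/
def fc (v : ZMod 2 × F × F) : F := v.2.1 + v.2.2

omit [AddCommGroup F] [Fintype F] [DecidableEq F] in
theorem ext_ab {u v : ZMod 2 × F × F} (h : u.1 = v.1) (h1 : fa u = fa v) (h2 : fb u = fb v) :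
    u = v := Prod.ext h (Prod.ext h1 h2)

omit [Fintype F] [DecidableEq F] in
theorem ext_ac {u v : ZMod 2 × F × F} (h : u.1 = v.1) (h1 : fa u = fa v) (h2 : fc u = fc v) :
    u = v := by
  refine ext_ab h h1 ?_
  simp only [fa, fb, fc] at *
  rw [h1] at h2
  exact add_left_cancel h2

omit [Fintype F] [DecidableEq F] in
theorem ext_bc {u v : ZMod 2 × F × F} (h : u.1 = v.1) (h1 : fb u = fb v) (h2 : fc u = fc v) :
    u = v := by
  refine ext_ab h ?_ h1
  simp only [fa, fb, fc] at *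
  rw [h1] at h2
  exact add_right_cancel h2

omit [AddCommGroup F] [Fintype F] in
theorem fibre_le_two {V : Type} [DecidableEq V] (K : Finset V) (f g h : V → F)
    (hK : ∀ u ∈ K, ∀ v ∈ K, f u = f v ∨ g u = g v ∨ h u = h v)
    (hg : ∀ u ∈ K, ∀ v ∈ K, f u = f v → g u = g v → u = v)
    (hh : ∀ u ∈ K, ∀ v ∈ K, f u = f v → h u = h v → u = v)
    (hf : ¬ ∀ u ∈ K, ∀ v ∈ K, f u = f v) {p : V} (hp : p ∈ K) :
    ((K.filter fun s => f s = f p).erase p).card ≤ 1 := by
  have h1 : ∃ r ∈ K, f r ≠ f p := by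
    by_contra hcon
    refine hf fun u hu v hv => ?_
    have a1 : f u = f p := by by_contra h; exact hcon ⟨u, hu, h⟩
    have a2 : f v = f p := by by_contra h; exact hcon ⟨v, hv, h⟩
    rw [a1, a2]
  obtain ⟨r, hr, hrp⟩ := h1
  have h2 : ∀ s ∈ K, f s = f p → g s = g r ∨ h s = h r := fun s hs hsp =>
    (hK s hs r hr).resolve_left fun h => hrp (h.symm.trans hsp)
  refine Finset.card_le_one.mpr fun u hu v hv => ?_
  obtain ⟨hup, hu⟩ := mem_erase.mp hu
  obtain ⟨hvp, hv⟩ := mem_erase.mp hv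
  obtain ⟨huK, hu⟩ := mem_filter.mp hu
  obtain ⟨hvK, hv⟩ := mem_filter.mp hv
  rcases h2 p hp rfl with a | a
  · have b1 := (h2 u huK hu).resolve_left fun b => hup (hg u huK p hp hu (b.trans a.symm))
    have b2 := (h2 v hvK hv).resolve_left fun b => hvp (hg v hvK p hp hv (b.trans a.symm))
    exact hh u huK v hvK (hu.trans hv.symm) (b1.trans b2.symm)
  · have b1 := (h2 u huK hu).resolve_right fun b => hup (hh u huK p hp hu (b.trans a.symm))
    have b2 := (h2 v hvK hv).resolve_right fun b => hvp (hh v hvK p hp hv (b.trans a.symm))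
    exact hg u huK v hvK (hu.trans hv.symm) (b1.trans b2.symm)

omit [Fintype F] in
theorem small_le {K : Finset (ZMod 2 × F × F)} (hK : Clq K) (ha : ¬ Cst fa K) (hb : ¬ Cst fb K)
    (hc : ¬ Cst fc K) : K.card ≤ 4 := by
  rcases K.eq_empty_or_nonempty with rfl | ⟨p, hp⟩
  · simp
  have h1 := fibre_le_two K fa fb fc (fun u hu v hv => (hK u hu v hv).2)
    (fun u hu v hv => ext_ab (hK u hu v hv).1) (fun u hu v hv => ext_ac (hK u hu v hv).1) ha hp
  have h2 := fibre_le_two K fb fa fc (fun u hu v hv => by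
      have := (hK u hu v hv).2
      simp only [fa, fb, fc]; tauto)
    (fun u hu v hv a b => ext_ab (hK u hu v hv).1 b a)
    (fun u hu v hv => ext_bc (hK u hu v hv).1) hb hp
  have h3 := fibre_le_two K fc fa fb (fun u hu v hv => by
      have := (hK u hu v hv).2
      simp only [fa, fb, fc]; tauto)
    (fun u hu v hv a b => ext_ac (hK u hu v hv).1 b a)
    (fun u hu v hv a b => ext_bc (hK u hu v hv).1 b a) hc hp
  have h4 : K.erase p ⊆ ((K.filter fun s => fa s = fa p).erase p ∪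
      (K.filter fun s => fb s = fb p).erase p) ∪ (K.filter fun s => fc s = fc p).erase p := by
    intro s hs
    obtain ⟨hsp, hsK⟩ := mem_erase.mp hs
    have := (hK s hsK p hp).2
    simp only [mem_union, mem_erase, mem_filter, fa, fb, fc]
    tauto
  have h5 := (card_le_card h4).trans ((card_union_le _ _).trans
    (Nat.add_le_add_right (card_union_le _ _) _))
  rw [card_erase_of_mem hp] at h5
  omega

omit [AddCommGroup F] in
theorem card_avoid {K : Finset (ZMod 2 × F × F)} {f : ZMod 2 × F × F → F}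
    (hf : Set.InjOn f K) (T : Finset F) (h : ∀ v ∈ K, f v ∉ T) :
    K.card + T.card ≤ Fintype.card F := by
  have hd : Disjoint (K.image f) T := by
    rw [Finset.disjoint_left]
    intro t ht
    obtain ⟨v, hv, rfl⟩ := mem_image.mp ht
    exact h v hv
  have := Finset.card_le_univ (K.image f ∪ T)
  rwa [card_union_of_disjoint hd, card_image_of_injOn hf] at this

/-- General bound for the part `K'` from a part `K`: with forbidden sums `T`. -/
theorem card_forb (h2 : ∀ x : F, x + x = 0) {K K' : Finset (ZMod 2 × F × F)}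
    {f : ZMod 2 × F × F → F} (hf : Set.InjOn f K') {T : Finset F} (hT : T.Nonempty)
    (h : ∀ u ∈ K, ∀ v ∈ K', f u + f v ∉ T) :
    (K.Nonempty → K'.card + T.card ≤ Fintype.card F) ∧
    (¬ Cst f K → K'.card + 2 ≤ Fintype.card F) ∧
    (Set.InjOn f K → K'.card + K.card ≤ Fintype.card F) := by
  have key : ∀ a b : F, a + (a + b) = b := fun a b => by rw [← add_assoc, h2, zero_add]
  obtain ⟨t, ht⟩ := hT
  have h3 : K'.card + (K.image fun u => f u + t).card ≤ Fintype.card F := by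
    refine card_avoid hf _ fun v hv hm => ?_
    obtain ⟨u, hu, e⟩ := mem_image.mp hm
    refine h u hu v hv ?_
    rw [← e, key]; exact ht
  refine ⟨?_, fun hc => ?_, fun hi => ?_⟩
  · rintro ⟨u, hu⟩
    have := card_avoid hf (T.image fun s => f u + s) fun v hv hm => by
      obtain ⟨s, hs, e⟩ := mem_image.mp hm
      refine h u hu v hv ?_
      rw [← e, key]; exact hs
    rwa [card_image_of_injective _ (add_right_injective _)] at this
  · have h4 : 1 < (K.image fun u => f u + t).card := by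
      by_contra hle
      refine hc fun u hu v hv => ?_
      exact add_right_cancel (Finset.card_le_one.mp (not_lt.mp hle) _ (mem_image_of_mem _ hu) _
        (mem_image_of_mem _ hv))
    omega
  · rwa [card_image_of_injOn fun u hu v hv e => hi hu hv (add_right_cancel e)] at h3

/-- `H` lies in the row `b` and `G` is the set of its guests on the other side. -/
def Host (X Z : Finset F) (H G : Finset (ZMod 2 × F × F)) (b : F) : Prop :=
  (∀ v ∈ H, v.2.2 = b) ∧ (∀ r ∈ G, b + r.2.2 ∈ Z) ∧ H.card + X.card ≤ Fintype.card F ∧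
    (Set.InjOn (fb (F := F)) G ∨ (G.card ≤ 4 ∧ H.card + 2 ≤ Fintype.card F ∧ ¬ Cst fb G))

omit [Fintype F] in
theorem clq_types {K : Finset (ZMod 2 × F × F)} (hK : Clq K) :
    (Cst fb K ∧ Set.InjOn (fa (F := F)) K) ∨ (¬ Cst fb K ∧ Set.InjOn (fb (F := F)) K) ∨
      (¬ Cst fa K ∧ ¬ Cst fb K ∧ K.card ≤ 4) := by
  by_cases hb : Cst fb K
  · exact Or.inl ⟨hb, fun u hu v hv e => ext_ab (hK u hu v hv).1 e (hb u hu v hv)⟩
  by_cases ha : Cst fa K
  · exact Or.inr (Or.inl ⟨hb, fun u hu v hv e => ext_ab (hK u hu v hv).1 (ha u hu v hv) e⟩)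
  by_cases hc : Cst fc K
  · exact Or.inr (Or.inl ⟨hb, fun u hu v hv e => ext_bc (hK u hu v hv).1 e (hc u hu v hv)⟩)
  exact Or.inr (Or.inr ⟨ha, hb, small_le hK ha hb hc⟩)

theorem host_case (h2 : ∀ x : F, x + x = 0) {X Z : Finset F} (hX : X.Nonempty)
    (hq : 8 ≤ Fintype.card F) {H G : Finset (ZMod 2 × F × F)} (hG : Clq G) (hc : Crs X Z H G)
    (hb : Cst fb H) (ha : Set.InjOn (fa (F := F)) H) :
    H.card + G.card ≤ Fintype.card F ∨ ∃ b, Host X Z H G b := by
  have f1 := card_forb h2 (K := G) (K' := H) (f := fa) ha hX fun u hu v hv => (hc.symm u hu v hv).1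
  rcases H.eq_empty_or_nonempty with rfl | ⟨p, hp⟩
  · left
    rcases clq_types hG with ⟨-, h⟩ | ⟨-, h⟩ | ⟨-, -, h⟩
    · simpa using card_avoid h ∅ (by simp)
    · simpa using card_avoid h ∅ (by simp)
    · simp only [card_empty]; omega
  have e1 : ∀ v ∈ H, v.2.2 = p.2.2 := fun v hv => hb v hv p hp
  have e2 : ∀ r ∈ G, p.2.2 + r.2.2 ∈ Z := fun r hr => (hc p hp r hr).2
  rcases clq_types hG with ⟨-, h⟩ | ⟨h', h⟩ | ⟨h1, h', h3⟩
  · exact Or.inl (f1.2.2 h)
  all_goals
    have hne : G.Nonempty := by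
      rcases G.eq_empty_or_nonempty with rfl | h
      · exact absurd (fun u hu => by simp at hu) h'
      · exact h
  · exact Or.inr ⟨_, e1, e2, f1.1 hne, Or.inl h⟩
  · exact Or.inr ⟨_, e1, e2, f1.1 hne, Or.inr ⟨h3, f1.2.1 h1, h'⟩⟩

theorem pair_types (h2 : ∀ x : F, x + x = 0) {X Z : Finset F} (hX : X.Nonempty)
    (hY : Zᶜ.Nonempty) (hq : 8 ≤ Fintype.card F) {c : ℕ} (hcc : 4 ≤ Zᶜ.card + c ∨ 2 ≤ c)
    {K K' : Finset (ZMod 2 × F × F)} (hK : Clq K) (hK' : Clq K') (hc : Crs X Z K K') :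
    K.card + K'.card ≤ Fintype.card F + c ∨ (∃ b, Host X Z K K' b) ∨ ∃ b, Host X Z K' K b := by
  have aux : ∀ {K K' : Finset (ZMod 2 × F × F)}, Crs X Z K K' → Set.InjOn (fb (F := F)) K' → ¬ Cst fb K →
      (K'.card + Zᶜ.card ≤ Fintype.card F ∧ K'.card + 2 ≤ Fintype.card F) ∧
        (Set.InjOn (fb (F := F)) K → K'.card + K.card ≤ Fintype.card F) := by
    intro K K' hc hi hn
    have f1 := card_forb h2 (K := K) (K' := K') (f := fb) hi hY fun u hu v hv => by
      rw [mem_compl, not_not]; exact (hc u hu v hv).2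
    have hne : K.Nonempty := by
      rcases K.eq_empty_or_nonempty with rfl | h
      · exact absurd (fun u hu => by simp at hu) hn
      · exact h
    exact ⟨⟨f1.1 hne, f1.2.1 hn⟩, f1.2.2⟩
  rcases clq_types hK with ⟨a1, a2⟩ | ha
  · rcases host_case h2 hX hq hK' hc a1 a2 with h | h
    · left; omega
    · exact Or.inr (Or.inl h)
  rcases clq_types hK' with ⟨b1, b2⟩ | hb
  · rcases host_case h2 hX hq hK hc.symm b1 b2 with h | h
    · left; omega
    · exact Or.inr (Or.inr h)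
  left
  rcases ha with ⟨a1, a2⟩ | ⟨-, a1, a2⟩ <;> rcases hb with ⟨b1, b2⟩ | ⟨-, b1, b2⟩
  · have := (aux hc b2 a1).2 a2; omega
  · have := (aux hc.symm a2 b1).1; omega
  · have := (aux hc b2 a1).1; omega
  · omega

omit [Fintype F] [DecidableEq F] in
theorem guests_le (G : Finset (ZMod 2 × F × F)) (b : F) (O : Finset F)
    (h : ∀ r ∈ G, b + r.2.2 ∈ O) (hi : Set.InjOn (fb (F := F)) G) : G.card ≤ O.card :=
  card_le_card_of_injOn (fun r => b + r.2.2) (fun r hr => h r hr)
    fun _ hu _ hv e => hi hu hv (add_left_cancel e)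

omit [Fintype F] [DecidableEq F] in
theorem guests_le_small {G G' : Finset (ZMod 2 × F × F)} (hG : G' ⊆ G) (b : F) (O : Finset F)
    (h : ∀ r ∈ G', b + r.2.2 ∈ O) (h4 : G.card ≤ 4) (hn : ¬ Cst fb G) :
    G'.card ≤ O.card + 2 := by
  have h1 := card_le_card hG
  by_cases h2 : 2 ≤ O.card
  · omega
  rcases G'.eq_empty_or_nonempty with rfl | ⟨p, hp⟩
  · simp
  have h3 : 0 < O.card := card_pos.mpr ⟨_, h p hp⟩
  have h5 : G' ≠ G := by
    rintro rfl
    exact hn fun u hu v hv => add_left_cancel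
      (Finset.card_le_one.mp (by omega) _ (h u hu) _ (h v hv))
  have := card_lt_card (Finset.ssubset_iff_subset_ne.mpr ⟨hG, h5⟩)
  omega

/-- The part of a set on the side `e`. -/
def side (I : Finset (ZMod 2 × F × F)) (e : ZMod 2) : Finset (ZMod 2 × F × F) :=
  I.filter fun v => v.1 = e

omit [AddCommGroup F] [Fintype F] [DecidableEq F] in
theorem side_card (I : Finset (ZMod 2 × F × F)) (e : ZMod 2) :
    (side I e).card + (side I (e + 1)).card = I.card := by
  rw [← Finset.card_filter_add_card_filter_not (s := I) (fun v => v.1 = e), side, side]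
  congr 2
  refine Finset.filter_congr fun v _ => ?_
  generalize v.1 = x
  revert x e
  decide

theorem indep_types (h2 : ∀ x : F, x + x = 0) {X Z : Finset F} (hX : X.Nonempty)
    (hY : Zᶜ.Nonempty) (hq : 8 ≤ Fintype.card F) {c : ℕ} (hcc : 4 ≤ Zᶜ.card + c ∨ 2 ≤ c)
    {I : Finset (ZMod 2 × F × F)} (hI : ∀ x ∈ I, ∀ y ∈ I, x ≠ y → x + y ∉ LS X Z) :
    I.card ≤ Fintype.card F + c ∨
      ∃ ρ : ZMod 2 × F, Host X Z (side I ρ.1) (side I (ρ.1 + 1)) ρ.2 := by
  have hz : ∀ a b : F, a + b = 0 → a = b := fun a b h => by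
    rw [← h2 b] at h; exact add_right_cancel h
  have hclq : ∀ e, Clq (side I e) := by
    intro e u hu v hv
    obtain ⟨hu, eu⟩ := mem_filter.mp hu
    obtain ⟨hv, ev⟩ := mem_filter.mp hv
    refine ⟨eu.trans ev.symm, ?_⟩
    by_cases huv : u = v
    · rw [huv]; exact Or.inl rfl
    by_contra hcon
    refine hI u hu v hv huv (Or.inl ⟨?_, fun h => hcon (Or.inl (hz _ _ h)),
      fun h => hcon (Or.inr (Or.inl (hz _ _ h))), fun h => hcon (Or.inr (Or.inr (hz _ _ ?_)))⟩)
    · rw [Prod.fst_add, eu, ev]; exact CharTwo.add_self_eq_zero e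
    · have h' : u.2.1 + v.2.1 = u.2.2 + v.2.2 := h
      rw [add_add_add_comm, h', h2]
  have hcrs : Crs X Z (side I 0) (side I 1) := by
    intro u hu v hv
    obtain ⟨hu, eu⟩ := mem_filter.mp hu
    obtain ⟨hv, ev⟩ := mem_filter.mp hv
    have huv : u ≠ v := fun h => by
      rw [h, ev] at eu; exact absurd eu (by decide)
    have e1 : (u + v).1 = 1 := by rw [Prod.fst_add, eu, ev, zero_add]
    have h := hI u hu v hv huv
    exact ⟨fun hx => h (Or.inr ⟨e1, Or.inl hx⟩), by
      by_contra hx; exact h (Or.inr ⟨e1, Or.inr hx⟩)⟩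
  rcases pair_types h2 hX hY hq hcc (hclq 0) (hclq 1) hcrs with h | ⟨b, h⟩ | ⟨b, h⟩
  · left
    have := side_card I 0
    rw [zero_add] at this
    omega
  · exact Or.inr ⟨(0, b), by simpa using h⟩
  · refine Or.inr ⟨(1, b), ?_⟩
    have : (1 : ZMod 2) + 1 = 0 := by decide
    simpa [this] using h

/-- The explicit colouring. -/
theorem col_LS (h2 : ∀ x : F, x + x = 0) (X Z : Finset F) :
    Col (LS X Z) (Fintype.card F + X.card + Zᶜ.card) := by
  have hz : ∀ a b c d : F, a + c = b + d → a + b = c + d := fun a b c d h => by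
    have : a + b + (c + d) = 0 := by rw [add_add_add_comm, h, h2]
    rw [← h2 (c + d)] at this; exact add_right_cancel this
  refine col_of_card (κ := F ⊕ (X ⊕ (Zᶜ : Finset F))) (by simp [add_assoc])
    (fun v => if v.1 = 0 then
        (if h : v.2.1 + v.2.2 ∈ Zᶜ then Sum.inr (Sum.inr ⟨_, h⟩) else Sum.inl v.2.1)
      else (if h : v.2.1 + v.2.2 ∈ X then Sum.inr (Sum.inl ⟨_, h⟩) else Sum.inl v.2.2)) ?_
  rintro ⟨e, a, b⟩ ⟨e', a', b'⟩ - hs heq
  simp only [LS, Set.mem_ofPred_eq, Prod.mk_add_mk] at hs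
  have h11 : (1 : ZMod 2) + 1 = 0 := by decide
  rcases zmod2_cases e with rfl | rfl <;> rcases zmod2_cases e' with rfl | rfl <;>
    simp only [zero_add, add_zero, h11, zero_ne_one, one_ne_zero, true_and, false_and, or_false,
      false_or, if_true, if_false] at hs heq <;> split_ifs at heq with k1 k2 k2 <;>
    simp only [Sum.inl.injEq, Sum.inr.injEq, Subtype.mk.injEq, reduceCtorEq] at heq
  · exact hs.2.2 (hz _ _ _ _ heq)
  · exact hs.1 (by rw [heq, h2])
  · subst heq
    rw [mem_compl, not_not] at k1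
    rcases hs with hs | hs
    · exact k2 (by rwa [add_comm])
    · exact hs (by rwa [add_comm])
  · subst heq
    rw [mem_compl, not_not] at k2
    rcases hs with hs | hs
    · exact k1 hs
    · exact hs k2
  · exact hs.2.2 (hz _ _ _ _ heq)
  · exact hs.2.1 (by rw [heq, h2])

end Pool.Agent.MP_83e673_co.H84
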