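import Pool.Agent.MP_83e673_co.H84.Count

/-! All values in `[2 ^ n + 2, 2 ^ (n + 1)]` are chromatic numbers of cube-like graphs. -/

set_option autoImplicit false

namespace Pool.Agent.MP_83e673_co.H84

open Finset

theorem card_F (n : ℕ) : Fintype.card (Fin n → ZMod 2) = 2 ^ n := by simp

theorem exists_card (n k : ℕ) (h : k ≤ 2 ^ n) : ∃ X : Finset (Fin n → ZMod 2), X.card = k := by
  obtain ⟨X, -, hX⟩ := Finset.exists_subset_card_eq (s := (univ : Finset (Fin n → ZMod 2)))
    (n := k) (by rwa [card_univ, card_F])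
  exact ⟨X, hX⟩

theorem eight_le {n : ℕ} (hn : 3 ≤ n) : 8 ≤ 2 ^ n :=
  Nat.pow_le_pow_right (by norm_num : 0 < 2) hn

theorem att1_mid {n y : ℕ} (hn : 3 ≤ n) (h1 : 2 ≤ y) (h2 : y + 4 ≤ 2 ^ n) : Att1 (2 ^ n + y) := by
  have h8 := eight_le hn
  obtain ⟨X, hX⟩ := exists_card n 1 (by omega)
  obtain ⟨Z, hZ⟩ := exists_card n (2 ^ n - y) (by omega)
  have hY : Zᶜ.card = y := by rw [card_compl, card_F, hZ]; omega
  refine ⟨_, inferInstance, inferInstance, inferInstance, LS X Z, ?_, ?_⟩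
  · have := col_LS ZModModule.add_self X Z
    rwa [card_F, hX, hY, add_right_comm] at this
  · have := not_col ZModModule.add_self X Z (card_pos.mp (by omega)) (by rwa [card_F])
      (by omega) (by omega)
    rwa [card_F, hY] at this

theorem att1_alpha {n x z c a : ℕ} (hn : 3 ≤ n) (hx : 1 ≤ x) (hx' : x ≤ 2 ^ n) (hz : z < 2 ^ n)
    (hc : 4 + z ≤ 2 ^ n + c ∨ 2 ≤ c) (a1 : 2 ^ n + c ≤ a) (a2 : 2 ^ n + z ≤ a + x)
    (a3 : 2 ^ n + 4 ≤ a + x ∨ 2 ^ n + 2 ≤ a) {m : ℕ} (hm : m + 1 + z = 2 * 2 ^ n + x)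
    (a4 : m * a < 2 * (2 ^ n * 2 ^ n)) : Att1 m := by
  have h8 := eight_le hn
  obtain ⟨X, hX⟩ := exists_card n x hx'
  obtain ⟨Z, hZ⟩ := exists_card n z hz.le
  have hY : Zᶜ.card = 2 ^ n - z := by rw [card_compl, card_F, hZ]
  refine ⟨_, inferInstance, inferInstance, inferInstance, LS X Z, ?_, fun h => ?_⟩
  · have := col_LS ZModModule.add_self X Z
    rwa [card_F, hX, hY, show 2 ^ n + x + (2 ^ n - z) = m + 1 by omega] at this
  · have := card_le_of_col (a := a) h fun I hI => by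
      rcases indep_types (c := c) ZModModule.add_self (card_pos.mp (by omega))
        (card_pos.mp (by omega)) (by rwa [card_F]) (by omega) hI with h | ⟨ρ, h⟩
      · rw [card_F] at h; omega
      · have h1 := host_card h
        have h2 := side_card I ρ.1
        rw [card_F, hX, hZ] at h1
        omega
    rw [Fintype.card_prod, Fintype.card_prod, ZMod.card, card_F] at this
    omega

theorem att1_low {n : ℕ} (hn : 3 ≤ n) : Att1 (2 ^ n + 1) := by
  have h8 := eight_le hn
  refine att1_alpha (x := 1) (z := 2 ^ n - 1) (c := 2) (a := 2 * 2 ^ n - 2) hn le_rfl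
    (by omega) (by omega) (by omega) (by omega) (by omega) (by omega) (by omega) ?_
  obtain ⟨k, hk⟩ : ∃ k, 2 ^ n = k + 1 := ⟨2 ^ n - 1, by omega⟩
  rw [hk, show 2 * (k + 1) - 2 = 2 * k by omega]
  nlinarith

theorem att1_top {n : ℕ} (hn : 2 ≤ n) : Att1 (2 * 2 ^ n - 2) := by
  rcases Nat.eq_or_lt_of_le hn with rfl | hn
  · exact att1_six
  have h8 := eight_le hn
  refine att1_alpha (x := 3) (z := 4) (c := 0) (a := 2 ^ n + 1) hn (by omega)
    (by omega) (by omega) (by omega) (by omega) (by omega) (by omega) (by omega) ?_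
  obtain ⟨k, hk⟩ : ∃ k, 2 ^ n = k + 1 := ⟨2 ^ n - 1, by omega⟩
  rw [hk, show 2 * (k + 1) - 2 = 2 * k by omega]
  nlinarith

/-- Every `m + 1` with `2 ^ n + 2 ≤ m + 1 ≤ 2 ^ (n + 1)` is attained. -/
theorem att1_block {n m : ℕ} (h1 : 2 ^ n + 1 ≤ m) (h2 : m + 1 ≤ 2 ^ (n + 1)) : Att1 m := by
  rcases Nat.eq_or_lt_of_le h2 with h | h
  · have := att1_pow (n + 1)
    rwa [← h] at this
  rw [pow_succ] at h h2
  by_cases hn : 3 ≤ n
  · have h8 := eight_le hn
    by_cases a1 : m = 2 ^ n + 1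
    · rw [a1]; exact att1_low hn
    by_cases a2 : m = 2 * 2 ^ n - 2
    · rw [a2]; exact att1_top (by omega)
    by_cases a3 : m = 2 * 2 ^ n - 3
    · obtain ⟨k, rfl⟩ : ∃ k, n = k + 1 := ⟨n - 1, by omega⟩
      have := att1_double (att1_top (n := k) (by omega))
      rw [pow_succ] at a3 h8
      rwa [show 2 * (2 * 2 ^ k - 2) + 1 = m by omega] at this
    · have := att1_mid (y := m - 2 ^ n) hn (by omega) (by omega)
      rwa [show 2 ^ n + (m - 2 ^ n) = m by omega] at this
  · have : n = 0 ∨ n = 1 ∨ n = 2 := by omega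
    rcases this with rfl | rfl | rfl
    · omega
    · omega
    · have : m = 5 ∨ m = 6 := by omega
      rcases this with rfl | rfl
      · exact att1_five
      · exact att1_six

theorem main : ∃ f : ℕ → ℕ, ∀ m : ℕ, 0 < m →
    (Att m ↔ ∃ n : ℕ, 2 ^ n - f n ≤ m ∧ m ≤ 2 ^ n) := by
  classical
  refine ⟨fun n => if n = 0 then 0 else if Att (2 ^ (n - 1) + 1) then 2 ^ (n - 1) - 1
    else 2 ^ (n - 1) - 2, fun m hm => ⟨fun h => ?_, ?_⟩⟩
  · rcases Nat.eq_or_lt_of_le hm with rfl | hm1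
    · exact ⟨0, by simp⟩
    have h1 := Nat.pow_pred_clog_lt_self (b := 2) (by norm_num) hm1
    have h2 := Nat.le_pow_clog (b := 2) (by norm_num) m
    have h3 := Nat.clog_pos (b := 2) (by norm_num) hm1
    obtain ⟨n, hn⟩ : ∃ n, Nat.clog 2 m = n + 1 := ⟨_, (Nat.succ_pred_eq_of_pos h3).symm⟩
    rw [hn] at h1 h2
    simp only [Nat.pred_succ] at h1
    refine ⟨n + 1, ?_, h2⟩
    simp only [Nat.succ_ne_zero, if_false, Nat.add_sub_cancel]
    rw [pow_succ] at h2 ⊢
    split_ifs with ha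
    · have : 0 < 2 ^ n := by positivity
      omega
    · have h4 : m ≠ 2 ^ n + 1 := fun e => ha (e ▸ h)
      have h5 : n ≠ 0 := by
        rintro rfl
        omega
      have h6 : 2 ≤ 2 ^ n := Nat.one_lt_two_pow h5
      omega
  · rintro ⟨n, h1, h2⟩
    obtain ⟨m, rfl⟩ : ∃ k, m = k + 1 := ⟨m - 1, by omega⟩
    cases n with
    | zero =>
      have : m = 0 := by simpa using h2
      subst this
      exact att_of_att1 (att1_pow 0)
    | succ n =>
      simp only [Nat.succ_ne_zero, if_false, Nat.add_sub_cancel] at h1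
      have hpos : 0 < 2 ^ n := by positivity
      by_cases h3 : 2 ^ n + 1 ≤ m
      · exact att_of_att1 (att1_block h3 h2)
      rw [pow_succ] at h1 h2
      split_ifs at h1 with ha
      · rwa [show m = 2 ^ n by omega]
      · cases n with
        | zero =>
          have : m = 1 := by omega
          subst this
          exact att_of_att1 (att1_pow 1)
        | succ n =>
          have : 0 < 2 ^ n := by positivity
          rw [pow_succ] at h1 h3
          omega

end Pool.Agent.MP_83e673_co.H84
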